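import Pool.Agent.W516.MT.Stmt

set_option autoImplicit false

namespace Pool.Agent.W462.MT

open Module Filter Topology Pool.Agent.W516.MTS

theorem T_PADC : S_PADC := by
  intro ℓ _ n Y y hY hy
  let S : Set ((Fin n → Fin n → ℚ_[ℓ]) × ℚ_[ℓ]) :=
    (Set.univ.pi fun _ => Set.univ.pi fun _ => Metric.closedBall (0 : ℚ_[ℓ]) 1) ×ˢ
      Metric.closedBall (0 : ℚ_[ℓ]) 1
  have hS : IsCompact S :=
    (isCompact_univ_pi fun _ => isCompact_univ_pi fun _ => isCompact_closedBall _ _).prod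
      (isCompact_closedBall _ _)
  have hmem : ∀ k, ((Y k : Fin n → Fin n → ℚ_[ℓ]), y k) ∈ S := by
    intro k
    refine ⟨?_, ?_⟩
    · intro i _ j _
      rw [mem_closedBall_zero_iff]
      exact hY k i j
    · rw [mem_closedBall_zero_iff]
      exact hy k
  obtain ⟨⟨Y₀, y₀⟩, -, f, hf, hlim⟩ := hS.tendsto_subseq hmem
  refine ⟨Y₀, y₀, f, hf, ?_, ?_⟩
  · exact (continuous_fst.tendsto _).comp hlim
  · exact (continuous_snd.tendsto _).comp hlim

end Pool.Agent.W462.MT
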